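import Pool.Agent.E8helper28.IX.Ix3

/-!
# Primes `p_{q+2} + h` for the numbers `q < 2 n` of arbitrary sets and almost all `h` (helper28)
-/

set_option autoImplicit false

namespace Pool.Agent.E8helper28.Moved.ArbitraryIndices

open Finset

/-- the `k`-th prime, `p 1 = 2` -/
noncomputable def p (k : ℕ) : ℕ := Nat.nth Nat.Prime (k - 1)

/-- `∏_{r ≤ z} (1 - 1 / r)` over primes `r`, the density of the integers without prime factors `≤ z`. -/
noncomputable def V (z : ℕ) : ℝ := ∏ r ∈ (Icc 1 z).filter Nat.Prime, (1 - 1 / (r : ℝ))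

open Classical in
/-- The number of the primes `q < 2 n` in `M` such that `2 n - q` is prime and all `p_{q+2} + h i` are prime. -/
noncomputable def goldbachCount {k : ℕ} (n : ℕ) (M : Set ℕ) (h : Fin k → ℕ) : ℕ :=
  ((range (2 * n)).filter (fun q : ℕ => q ∈ M ∧ q.Prime ∧ (2 * n - q).Prime ∧ ∀ i, (p (q + 2) + h i).Prime)).card

open Classical in
/-- The number of the primes `q < 2 n` in `M` such that `2 n - q` is prime and no `p_{q+2} + h i` is divisible by a
prime `r ≤ z`. -/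
noncomputable def roughCount {k : ℕ} (n z : ℕ) (M : Set ℕ) (h : Fin k → ℕ) : ℕ :=
  ((range (2 * n)).filter (fun q : ℕ => q ∈ M ∧ q.Prime ∧ (2 * n - q).Prime ∧
    ∀ i, ∀ r : ℕ, r.Prime → r ≤ z → ¬ r ∣ p (q + 2) + h i)).card

/-- For every one of the sets `M l` which contains at least `2 n / log ^ K (2 n)` primes `q < 2 n` such that
`2 n - q` is prime and no `p_{q+2} + h i` has a prime factor `≤ z`, the proportion of these `q` for which all
`p_{q+2} + h i` are prime is `1 / (V z log (2 n)) ^ k`, up to a relative error of at most `ε`. -/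
def Relative (ε : ℝ) (K n z : ℕ) {k r : ℕ} (M : Fin r → Set ℕ) (h : Fin k → ℕ) : Prop :=
  ∀ l : Fin r, ((2 * n : ℕ) : ℝ) / Real.log ((2 * n : ℕ) : ℝ) ^ K ≤ roughCount n z (M l) h →
    |(goldbachCount n (M l) h : ℝ) - roughCount n z (M l) h / (V z * Real.log ((2 * n : ℕ) : ℝ)) ^ k| ≤
      ε * (roughCount n z (M l) h / (V z * Real.log ((2 * n : ℕ) : ℝ)) ^ k)

open Pool.Agent.H373R2.T7 (pz mem_pz Vz)
open Pool.Agent.E8helper28.IX

/-- the index maps -/
noncomputable def fm (k : ℕ) : Fin k → ℕ → ℕ := fun _ q => p (q + 2)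

lemma fam (k : ℕ) : ∃ N0 : ℕ, ∀ n : ℕ, N0 ≤ n → Fam 2 n (n - 1) (fm k) := by
  obtain ⟨n1, h1⟩ := nth_le_log
  refine ⟨n1 + 2, fun n hn i => ?_⟩
  constructor
  · intro a ha b hb hab
    have hab' : p (a + 2) = p (b + 2) := hab
    unfold p at hab'
    have := nth_inj hab'
    omega
  · intro m hm
    rw [mem_Icc] at hm
    exact h1 n (by omega) (m + 2 - 1) (by omega)

open Classical in
/-- the set of the indices -/
noncomputable def ind (n : ℕ) (M : Set ℕ) : Finset ℕ :=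
  (Icc 1 (2 * n - 1)).filter (fun q : ℕ => q ∈ M ∧ q.Prime ∧ (2 * n - q).Prime)

open Classical in
lemma prime_eq {k : ℕ} (n : ℕ) (M : Set ℕ) (h : Fin k → ℕ) :
    goldbachCount n M h = cq (fm k) h (ind n M) := by
  unfold goldbachCount cq qP ind
  congr 1
  ext q
  simp only [mem_filter, mem_range, mem_Icc]
  constructor
  · rintro ⟨h1, h2, h3, h4, h5⟩
    exact ⟨⟨⟨h3.one_le, by omega⟩, h2, h3, h4⟩, h5⟩
  · rintro ⟨⟨⟨h1, h2⟩, h3, h4, h5⟩, h6⟩
    exact ⟨by omega, h3, h4, h5, h6⟩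

open Classical in
lemma rough_eq {k : ℕ} (n z : ℕ) (M : Set ℕ) (h : Fin k → ℕ) :
    roughCount n z M h = rq (fm k) z h (ind n M) := by
  unfold roughCount rq qR ind
  congr 1
  ext q
  simp only [mem_filter, mem_range, mem_Icc]
  constructor
  · rintro ⟨h1, h2, h3, h4, h5⟩
    exact ⟨⟨⟨h3.one_le, by omega⟩, h2, h3, h4⟩, fun i r hr => h5 i r (mem_pz.1 hr).2 (mem_pz.1 hr).1⟩
  · rintro ⟨⟨⟨h1, h2⟩, h3, h4, h5⟩, h6⟩
    exact ⟨by omega, h3, h4, h5, fun i r hr1 hr2 => h6 i r (mem_pz.2 ⟨hr2, hr1⟩)⟩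

lemma V_eq (z : ℕ) : V z = Vz z := rfl

open Classical in
/-- **Goldbach representations with prime values of `p_{q+2} + h` for almost all shifts.** Let `E` be large in
terms of `k, T, U, K, ε` and let `n` be large in terms of all of them. Let `M 1, ..., M r`, `r ≤ log ^ T (2 n)`, be
arbitrary sets of integers. Then all but at most `(2 n) ^ k / log ^ U (2 n)` of the vectors `h` of `k` integers
`1 ≤ h i ≤ 2 n` satisfy the statement `Relative` for the sets `M l` with `z = ⌊log ^ E (2 n)⌋`. -/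
theorem result (k T U K : ℕ) (ε : ℝ) (hε : 0 < ε) :
    ∃ E₀ : ℕ, ∀ E : ℕ, E₀ ≤ E → ∃ n₀ : ℕ, ∀ n : ℕ, n₀ ≤ n →
    ∀ r : ℕ, (r : ℝ) ≤ Real.log ((2 * n : ℕ) : ℝ) ^ T → ∀ M : Fin r → Set ℕ,
      (((Fintype.piFinset (fun _ : Fin k => Icc 1 (2 * n))).filter
        (fun h => ¬ Relative ε K n ⌊Real.log ((2 * n : ℕ) : ℝ) ^ E⌋₊ M h)).card : ℝ) ≤
        ((2 * n : ℕ) : ℝ) ^ k / Real.log ((2 * n : ℕ) : ℝ) ^ U := by
  obtain ⟨E0, h0⟩ := arb_ix k 2 T U K ε hε
  refine ⟨E0, fun E hE => ?_⟩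
  obtain ⟨n0, h1⟩ := h0 E hE
  obtain ⟨n1, h2⟩ := fam k
  refine ⟨n0 + n1 + 2, fun n hn r hr M => ?_⟩
  have key := h1 (2 * n) (by omega) (2 * n - 1) (by omega) (by omega) (fm k) (h2 (2 * n) (by omega)) (Fin r)
    (by rw [Fintype.card_fin]; exact hr) (fun l : Fin r => ind n (M l)) (fun l => filter_subset _ _)
  refine le_trans ?_ key
  rw [Nat.cast_le]
  apply card_le_card
  intro h hh
  rw [mem_filter] at hh ⊢
  refine ⟨hh.1, fun hcon => hh.2 ?_⟩
  intro l hR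
  have h5 := hcon l
  rw [rough_eq] at hR ⊢
  rw [prime_eq, V_eq]
  exact h5 hR

end Pool.Agent.E8helper28.Moved.ArbitraryIndices
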